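import Pool.Agent.H15.CM.SCL

set_option autoImplicit false

open Polynomial

namespace Pool.CM

open SCL in
/-- module SAT -/
theorem sat (h1 : GAUStmt) : SATStmt := by
  intro X E _ A hA i d x hx hpx
  obtain ⟨g, hg, e⟩ := hpx
  obtain ⟨-, -, -, hint, -⟩ := h1 X E A hA i
  have hp := p_ne A hA i
  have hpR : algebraMap E[X] (RatFunc E) (C (X.p i : E)) = (X.p i : RatFunc E) := by
    rw [map_natCast, map_natCast]
  have hpR0 : (X.p i : RatFunc E) ≠ 0 := by
    rw [← hpR]; exact alg_ne (C_ne_zero.2 hp)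
  have hgg : g = C (X.p i : E) * (C ((X.p i : E)⁻¹) * g) := by
    rw [← mul_assoc, ← C_mul, mul_inv_cancel₀ hp, C_1, one_mul]
  have hxe : x = algebraMap E[X] (RatFunc E) (C ((X.p i : E)⁻¹) * g) := by
    apply mul_left_cancel₀ hpR0
    rw [e]
    conv_lhs => rw [hgg]
    rw [map_mul, hpR]
  have hI : A.Int i (C ((X.p i : E)⁻¹) * g) := hint _ (hxe ▸ hx)
  refine ⟨C ((X.p i : E)⁻¹) * g, ⟨?_, ?_⟩, hxe⟩
  · exact (natDegree_C_mul_le _ _).trans hg.1
  · intro n
    apply hA.pol_sat i d _ (hI n)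
    rw [coeff_C_mul, ← mul_assoc, mul_inv_cancel₀ hp, one_mul]
    exact hg.2 n

end Pool.CM
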