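import Pool.Agent.H10.CM.FStmts

set_option autoImplicit false

open Polynomial

namespace Pool.CM

namespace SCL

theorem un_div {X : Idx} {E : Type} [Field E] (A : PF X E) {i : X.I} {x y : E}
    (hx : A.Un i x) (hy : A.Un i y) : A.Un i (x / y) := by
  obtain ⟨hx0, hx1, hx2⟩ := hx
  obtain ⟨hy0, hy1, hy2⟩ := hy
  refine ⟨div_ne_zero hx0 hy0, ?_, ?_⟩
  · rw [div_eq_mul_inv]; exact (A.O i).mul_mem hx1 hy2
  · rw [inv_div, div_eq_mul_inv]; exact (A.O i).mul_mem hy1 hx2

theorem p_ne {X : Idx} {E : Type} [Field E] (A : PF X E) (hA : A.Ax) (i : X.I) :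
    (X.p i : E) ≠ 0 := by
  intro h
  apply hA.p_inv i
  rw [h, inv_zero]
  exact (A.O i).zero_mem

theorem alg_C {E : Type} [Field E] (a : E) :
    algebraMap E[X] (RatFunc E) (C a) = RatFunc.C a := rfl

theorem alg_ne {E : Type} [Field E] {g : E[X]} (hg : g ≠ 0) :
    algebraMap E[X] (RatFunc E) g ≠ 0 := by
  intro h
  exact hg (IsFractionRing.injective E[X] (RatFunc E) (by rw [h, map_zero]))

end SCL

open SCL in
/-- module SCL -/
theorem scl (h1 : GAUStmt) : SCLStmt := by
  intro X E _ A hA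
  refine ⟨?_, ?_⟩
  · intro i x hx
    obtain ⟨-, hsc, hpr, -, -⟩ := h1 X E A hA i
    obtain ⟨g, h, hh, rfl⟩ := IsFractionRing.div_surjective (A := E[X]) x
    have hh0 : h ≠ 0 := nonZeroDivisors.ne_zero hh
    have hg0 : g ≠ 0 := by
      rintro rfl
      apply hx
      rw [map_zero, zero_div]
    obtain ⟨a, ha⟩ := hsc g hg0
    obtain ⟨b, hb⟩ := hsc h hh0
    have hu := un_div A.ext (hpr _ ha) (hpr _ hb)
    have hp : (X.p i : RatFunc E) ≠ 0 := by
      intro h0
      apply p_ne A hA i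
      have : algebraMap E[X] (RatFunc E) (C ((X.p i : ℕ) : E)) = 0 := by
        rw [map_natCast, map_natCast]; exact h0
      by_contra hne
      exact alg_ne (C_ne_zero.2 hne) this
    have hz : ∀ k : ℤ, algebraMap E[X] (RatFunc E) (C ((X.p i : E) ^ k)) =
        (X.p i : RatFunc E) ^ k := by
      intro k
      rw [alg_C, map_zpow₀, map_natCast]
    refine ⟨a - b, ?_⟩
    have e : algebraMap E[X] (RatFunc E) g / algebraMap E[X] (RatFunc E) h *
        (X.p i : RatFunc E) ^ (a - b) =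
        algebraMap E[X] (RatFunc E) (C ((X.p i : E) ^ a) * g) /
          algebraMap E[X] (RatFunc E) (C ((X.p i : E) ^ b) * h) := by
      rw [map_mul, map_mul, hz, hz, zpow_sub₀ hp]
      have := alg_ne hh0
      have h3 : (X.p i : RatFunc E) ^ b ≠ 0 := zpow_ne_zero _ hp
      field_simp
    rw [e]
    exact hu
  · intro i hcon
    obtain ⟨-, -, -, hint, -⟩ := h1 X E A hA i
    have e : ((X.p i : ℕ) : RatFunc E)⁻¹ =
        algebraMap E[X] (RatFunc E) (C ((X.p i : E)⁻¹)) := by
      rw [alg_C, map_inv₀, map_natCast]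
    rw [e] at hcon
    have := hint _ hcon 0
    rw [coeff_C_zero] at this
    exact hA.p_inv i this

end Pool.CM
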