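import Pool.Agent.H15.CM.SCL

set_option autoImplicit false

open Polynomial

namespace Pool.CM

open SCL in
/-- module UNI -/
theorem uni (h1 : GAUStmt) : UNIStmt := by
  intro X E _ A hA x hx
  obtain ⟨g, h, hh, rfl⟩ := IsFractionRing.div_surjective (A := E[X]) x
  have hh0 : h ≠ 0 := nonZeroDivisors.ne_zero hh
  have hg0 : g ≠ 0 := by
    rintro rfl
    apply hx
    rw [map_zero, zero_div]
  have key : ∀ g : E[X], g ≠ 0 → X.Ev fun i => A.ext.Un i (algebraMap E[X] (RatFunc E) g) := by
    intro g hg0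
    have h2 : X.Ev fun i => ∀ n ∈ g.support, A.Un i (g.coeff n) :=
      Idx.Ev.allFinset g.support fun n hn => hA.pf2 _ (mem_support_iff.1 hn)
    refine h2.mono fun i hi => ?_
    obtain ⟨-, -, hpr, -, -⟩ := h1 X E A hA i
    apply hpr
    refine ⟨fun n => ?_, g.natDegree, ?_⟩
    · by_cases hn : n ∈ g.support
      · exact (hi n hn).2.1
      · rw [notMem_support_iff.1 hn]; exact (A.O i).zero_mem
    · exact hi _ (natDegree_mem_support_of_nonzero hg0)
  exact ((key g hg0).and (key h hh0)).mono fun i hi => un_div A.ext hi.1 hi.2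

end Pool.CM
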